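import Pool.Agent.Lib.MP_524519_ag.DU5.AB.Iface

/-! # Module GEN: `S` is generated, as a ring, by the constants and the coordinates -/

set_option autoImplicit false

namespace Pool.Agent.DU5.AB.H57

open Pool.Agent.DU5 Pool.Agent.DU5.AB

section

variable {k S : Type} [Field k] [CommRing S] [Algebra k S]

theorem it_pow (D : Derivation k S S) (y : S) (hy : D y = 1) (e : S) (he : D e = 0) (r : ℕ) :
    D^[r] (y ^ r * e) = (r.factorial : S) * e := by
  induction r with
  | zero => simp
  | succ r ih =>
    have h1 : D (y ^ (r + 1) * e) = ((r + 1 : ℕ) : S) * (y ^ r * e) := by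
      rw [Derivation.leibniz, he, smul_zero, zero_add, Derivation.leibniz_pow, hy,
        Nat.add_sub_cancel, smul_eq_mul, smul_eq_mul, mul_one, nsmul_eq_mul]
      ring
    rw [Function.iterate_succ_apply, h1, it_const D r (D.map_natCast (r + 1)), ih,
      Nat.factorial_succ]
    push_cast
    ring

/-- Expansion with respect to one of the coordinates. -/
theorem expand (p : ℕ) [hp : Fact p.Prime] [CharP k p] (D : Derivation k S S) (y : S)
    (hy : D y = 1) (nil : ∀ a, D^[p] a = 0) (P G : S → Prop) (hGD : ∀ a, G a → G (D a))
    (hGs : ∀ (a b : S) (r : ℕ) (c : k), G a → G b → G (a - y ^ r * (algebraMap k S c * b)))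
    (hc : ∀ c : k, P (algebraMap k S c)) (hPy : P y)
    (hadd : ∀ a b, P a → P b → P (a + b)) (hmul : ∀ a b, P a → P b → P (a * b))
    (hb : ∀ b, G b → D b = 0 → P b) : ∀ a, G a → P a := by
  have hpow : ∀ r : ℕ, P (y ^ r) := by
    intro r
    induction r with
    | zero =>
      have := hc 1
      rwa [map_one, ← pow_zero y] at this
    | succ r ih => rw [pow_succ]; exact hmul _ _ ih hPy
  have hGit : ∀ (r : ℕ) (a : S), G a → G (D^[r] a) := by
    intro r
    induction r with
    | zero => intro a ha; exact ha
    | succ r ih =>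
      intro a ha
      rw [Function.iterate_succ_apply']
      exact hGD _ (ih a ha)
  have key : ∀ r : ℕ, r ≤ p → ∀ a, G a → D^[r] a = 0 → P a := by
    intro r
    induction r with
    | zero =>
      intro _ a _ ha
      have h0 : a = 0 := ha
      have := hc 0
      rwa [map_zero, ← h0] at this
    | succ r ih =>
      intro hr a hGa ha
      set b : S := D^[r] a with hbdef
      have hDb : D b = 0 := by
        rw [hbdef, ← Function.iterate_succ_apply' D r a]
        exact ha
      have hGb : G b := hGit r a hGa
      have hfac : (r.factorial : k) ≠ 0 := by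
        intro h0
        have h1 := (CharP.cast_eq_zero_iff k p r.factorial).1 h0
        have h2 := (hp.out.dvd_factorial).1 h1
        omega
      set c : k := ((r.factorial : k))⁻¹ with hcdef
      have hce : D (algebraMap k S c * b) = 0 := by
        rw [Derivation.leibniz, hDb, smul_zero, Derivation.map_algebraMap, smul_zero, add_zero]
      have h3 : D^[r] (y ^ r * (algebraMap k S c * b)) = b := by
        rw [it_pow D y hy _ hce r, ← mul_assoc]
        have h4 : (r.factorial : S) * algebraMap k S c = 1 := by
          rw [← map_natCast (algebraMap k S), ← map_mul, hcdef, mul_inv_cancel₀ hfac, map_one]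
        rw [h4, one_mul]
      have h5 : D^[r] (a - y ^ r * (algebraMap k S c * b)) = 0 := by
        rw [sub_eq_add_neg, it_add, it_neg, h3, ← hbdef]
        ring
      have h6 := ih (by omega) _ (hGs a b r c hGa hGb) h5
      have h7 := hadd _ _ h6 (hmul _ _ (hpow r) (hmul _ _ (hc c) (hb b hGb hDb)))
      rwa [sub_add_cancel] at h7
  intro a ha
  exact key p le_rfl a ha (nil a)

end

/-- GEN. -/
theorem gen : GENStatement := by
  intro p _ k S _ _ _ _ D y hD P hconst hy hadd hmul a
  have hc : ∀ c : k, P (algebraMap k S c) := fun c =>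
    hconst _ fun l => (D l).map_algebraMap c
  refine expand p (D 0) (y 0) (by rw [hD.dual]; simp) (hD.nil 0) P (fun _ => True)
    (fun _ _ => trivial) (fun _ _ _ _ _ _ => trivial) hc (hy 0) hadd hmul ?_ a trivial
  intro b _ hb
  refine expand p (D 1) (y 1) (by rw [hD.dual]; simp) (hD.nil 1) P (fun a => D 0 a = 0)
    (fun a ha => ?_) (fun a b r c ha hb => ?_) hc (hy 1) hadd hmul ?_ b hb
  · rw [hD.comm, ha, map_zero]
  · have h01 : D 0 (y 1) = 0 := by rw [hD.dual]; simp
    rw [map_sub, ha, Derivation.leibniz, Derivation.leibniz, hb, Derivation.map_algebraMap,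
      Derivation.leibniz_pow, h01]
    simp
  · intro b' h0 h1
    refine hconst b' fun l => ?_
    fin_cases l
    · exact h0
    · exact h1

end Pool.Agent.DU5.AB.H57
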